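import Pool.Agent.Helper20_AEU.Tools

/-!
Modules UNT, EXI, LOC: gaps by compactness.
-/

namespace Pool.Agent.AEU.H20

open MeasureTheory Complex Filter Topology Pool.Agent.H62T
open Pool.Agent.H16F (Sublin)
open Pool.Agent.AEU

/-- hull of contact points for the sides in `S` and of one more point -/
theorem hull_contacts (sup : SupStatement) (hul : HulStatement) (lams : LamStatement)
    {P : Finset HP} (hcl : ∀ h : ℂ → ℝ, Fits P h → ∀ x, In x h → x ∈ Cl P)
    {h : ℂ → ℝ} (hs : Sublin h) (hF : Fits P h) (S : Finset HP) (hS : S ⊆ touch P h)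
    {y : ℂ} (hy : In y h) (m : ℕ) (hm : S.card ≤ m) :
    ∃ x : Fin (m + 1) → ℂ, (∀ i, x i ∈ Cl P) ∧ (∀ w, hf x w ≤ h w) ∧ Sublin (hf x) ∧
      Fits P (hf x) ∧ S ⊆ touch P (hf x) ∧ In y (hf x) ∧ lam (hf x) ≤ lam h := by
  classical
  obtain ⟨A, hA1, hA2, hA3⟩ := contacts sup hs S hS
  have hin : ∀ a ∈ insert y A, In a h := by
    intro a ha
    rcases Finset.mem_insert.1 ha with rfl | ha
    · exact hy
    · exact hA2 a ha
  obtain ⟨x, hx1, hx2, hx3, hx4⟩ := hull_of hul (insert y A) (Finset.insert_nonempty _ _)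
    hin m ((Finset.card_insert_le _ _).trans (by omega))
  have hF' := fits_of_le hx2 hF
  refine ⟨x, fun i => hcl h hF _ (hin _ (hx1 i)), hx2, hx3, hF', ?_, hx4 _ (by simp),
    (lams.2.1 _ _ hx3 hs hx2).1⟩
  intro s hs'
  obtain ⟨a, ha, hae⟩ := hA3 s hs'
  exact touch_of_point (touch_subset _ _ (hS hs')) hF' (hx4 a (by simp [ha])) hae

theorem exists_in (sup : SupStatement) {h : ℂ → ℝ} (hs : Sublin h) : ∃ x, In x h :=
  let ⟨x, hx, _⟩ := (sup h hs).2.2.2 0
  ⟨x, hx⟩

theorem unt (cnt : CntStatement) (hul : HulStatement) (sup : SupStatement) (ver : VerStatement)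
    (mixs : MixStatement) (lams : LamStatement) : UntStatement := by
  intro P hG S L hSP hS3 H
  have hP := hG.pg
  have gP := hG.g1
  have hK : IsCompact ({x : Fin (3 + 1) → ℂ | ∀ i, x i ∈ Cl P} ∩
      {x : Fin (3 + 1) → ℂ | S ⊆ touch P (hf x)}) :=
    (isCompact_tuples ver hP gP 3).inter_right (isClosed_touch cnt P S hSP 3)
  obtain ⟨δ, hδ, hgap⟩ := exists_gap cnt hK L fun x hx =>
    H (hf x) (hul 3 x).1 ((mixs P).2.2 3 x hx.1).1 hx.2
  refine ⟨δ, hδ, fun h hs hF hSt => ?_⟩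
  obtain ⟨y, hy⟩ := exists_in sup hs
  obtain ⟨x, hx1, _, _, _, hx5, _, hx7⟩ := hull_contacts sup hul lams
    (ver P hP gP).2.2.2.2.2.2.1 hs hF S hSt hy 3 (by omega)
  exact (hgap x ⟨hx1, hx5⟩).trans hx7

/-- gap for the bodies which touch `S` and one more side -/
theorem gap_four (cnt : CntStatement) (hul : HulStatement) (sup : SupStatement)
    (ver : VerStatement) (mixs : MixStatement) (lams : LamStatement) {P : Finset HP}
    (hP : Pg P) (gP : G1 P) (S : Finset HP) (hSP : S ⊆ P) (hS3 : S.card = 3) (L : ℝ)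
    (H : ∀ h, Sublin h → Fits P h → S ⊆ touch P h → lam h ≤ L → (touch P h).card ≤ 3) :
    ∃ δ > 0, ∀ h, Sublin h → Fits P h → S ⊆ touch P h → lam h < L + δ → touch P h = S := by
  have hK : IsCompact ({x : Fin (3 + 1) → ℂ | ∀ i, x i ∈ Cl P} ∩
      ({x : Fin (3 + 1) → ℂ | S ⊆ touch P (hf x)} ∩
        {x : Fin (3 + 1) → ℂ | 4 ≤ (touch P (hf x)).card})) :=
    (isCompact_tuples ver hP gP 3).inter_right
      ((isClosed_touch cnt P S hSP 3).inter (isClosed_card cnt P 4 3))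
  obtain ⟨δ, hδ, hgap⟩ := exists_gap cnt hK L fun x hx => by
    by_contra hlt
    have := H (hf x) (hul 3 x).1 ((mixs P).2.2 3 x hx.1).1 hx.2.1 (not_lt.1 hlt)
    have h4 : 4 ≤ (touch P (hf x)).card := hx.2.2
    omega
  refine ⟨δ, hδ, fun h hs hF hSt hlt => ?_⟩
  by_contra hne
  have hss : S ⊂ touch P h := lt_of_le_of_ne hSt (Ne.symm hne)
  obtain ⟨s, hs1, hs2⟩ := Finset.exists_of_ssubset hss
  obtain ⟨y, hy, hye⟩ := (sup h hs).2.2.2 s.1
  obtain ⟨x, hx1, _, _, hx4, hx5, hx6, hx7⟩ := hull_contacts sup hul lams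
    (ver P hP gP).2.2.2.2.2.2.1 hs hF S hSt hy 3 (by omega)
  have hsx : s ∈ touch P (hf x) :=
    touch_of_point (touch_subset _ _ hs1) hx4 hx6 (hye.trans (mem_touch.1 hs1).2)
  have h4 : 4 ≤ (touch P (hf x)).card := by
    classical
    have h5 : insert s S ⊆ touch P (hf x) := Finset.insert_subset hsx hx5
    have h6 := Finset.card_le_card h5
    rw [Finset.card_insert_of_notMem hs2, hS3] at h6
    exact h6
  have := hgap x ⟨hx1, hx5, h4⟩
  linarith

theorem exi (cnt : CntStatement) (hul : HulStatement) (sup : SupStatement)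
    (ver : VerStatement) (mixs : MixStatement) (lams : LamStatement) : ExiStatement := by
  classical
  intro P hG S L hSP hS3 hex H
  obtain ⟨h₀, hs₀, hF₀, hL₀, hS₀⟩ := hex
  obtain ⟨δ, hδ, hgap⟩ := gap_four cnt hul sup ver mixs lams hG.pg hG.g1 S hSP hS3 L H
  refine ⟨δ, hδ, fun h hs hl hlt => ?_⟩
  have hfit : Fits P h := by
    by_contra hnf
    simp only [Fits] at hnf
    push Not at hnf
    set T := P.filter fun s => s.2 < h s.1 with hT
    have hTne : T.Nonempty := by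
      obtain ⟨s, h1, h2⟩ := hnf
      exact ⟨s, by simp [hT, h1, h2]⟩
    obtain ⟨t, htT, htmin⟩ := T.exists_min_image
      (fun s => (s.2 - h₀ s.1) / (h s.1 - h₀ s.1)) hTne
    have htP : t ∈ P := (Finset.mem_filter.1 htT).1
    have htl : t.2 < h t.1 := (Finset.mem_filter.1 htT).2
    have hden : 0 < h t.1 - h₀ t.1 := by have := hF₀ t htP; linarith
    set τ := (t.2 - h₀ t.1) / (h t.1 - h₀ t.1) with hτ
    have hτ0 : 0 ≤ τ := div_nonneg (by have := hF₀ t htP; linarith) hden.le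
    have hτ1 : τ ≤ 1 := by rw [hτ, div_le_one hden]; linarith
    obtain ⟨m1, m2, _, _⟩ := (mixs P).1 h₀ h hs₀ hs τ hτ0 hτ1
    have hSm : ∀ s ∈ S, mix τ h₀ h s.1 = s.2 := by
      intro s hsS
      have e1 := (mem_touch.1 (hS₀ hsS)).2
      have e2 := hl s hsS
      simp only [mix, e1, e2]
      ring
    have hFm : Fits P (mix τ h₀ h) := by
      intro s hsP
      by_cases hsT : s ∈ T
      · have h1 := htmin s hsT
        have hsl : s.2 < h s.1 := (Finset.mem_filter.1 hsT).2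
        have hden' : 0 < h s.1 - h₀ s.1 := by have := hF₀ s hsP; linarith
        rw [le_div_iff₀ hden'] at h1
        simp only [mix]
        have : (s.2 - h₀ s.1) / (h s.1 - h₀ s.1) * (h s.1 - h₀ s.1) = s.2 - h₀ s.1 :=
          div_mul_cancel₀ _ hden'.ne'
        nlinarith [h1]
      · have hsl : h s.1 ≤ s.2 := by
          by_contra hc
          exact hsT (Finset.mem_filter.2 ⟨hsP, not_le.1 hc⟩)
        have h0l := hF₀ s hsP
        simp only [mix]
        nlinarith
    have hSt : S ⊆ touch P (mix τ h₀ h) := fun s hsS => mem_touch.2 ⟨hSP hsS, hSm s hsS⟩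
    have hlm : lam (mix τ h₀ h) < L + δ := by
      rw [m2]
      rcases hτ0.eq_or_lt with h0 | h0
      · rw [← h0]; linarith
      · nlinarith
    have hte := hgap _ m1 hFm hSt hlm
    have htm : t ∈ touch P (mix τ h₀ h) := by
      refine mem_touch.2 ⟨htP, ?_⟩
      simp only [mix, hτ]
      field_simp
      ring
    rw [hte] at htm
    have := hl t htm
    linarith
  have hSt : S ⊆ touch P h := fun s hsS => mem_touch.2 ⟨hSP hsS, hl s hsS⟩
  exact ⟨hfit, hgap h hs hfit hSt hlt⟩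

theorem loc (lx : LxStatement) (opn : OpnStatement) (cnt : CntStatement) (hul : HulStatement)
    (sup : SupStatement) (ver : VerStatement) (mixs : MixStatement) (lams : LamStatement)
    (act : ActStatement) : LocStatement := by
  intro P Q hG hG' L ok ok' S g h₀ hS3 hs₀ hM hL hS₀
  have hP := hG.pg
  have gP := hG.g1
  have hSP : S ⊆ P := hS₀.trans (touch_subset _ _)
  have hK₀ : IsCompact ({x : Fin (3 + 1) → ℂ | ∀ i, x i ∈ Cl P} ∩
      {x : Fin (3 + 1) → ℂ | S ⊆ touch P (hf x)}) :=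
    (isCompact_tuples ver hP gP 3).inter_right (isClosed_touch cnt P S hSP 3)
  have hK := compact_not hK₀ (fun x hx => ((mixs P).2.2 3 x hx.1).1) (fun h => Mat P Q g h)
    fun x hx => matched_nhds opn cnt hx
  obtain ⟨δ, hδ, hgap⟩ := exists_gap cnt hK L fun x hx => by
    by_contra hlt
    exact hx.2 (lx P Q hP hG'.pg gP hG'.g1 L ok ok' S g h₀ (hf x) hS3 hS₀ hx.1.2 hs₀
      (hul 3 x).1 hM ((mixs P).2.2 3 x hx.1.1).1 hL (not_lt.1 hlt))
  refine ⟨δ, hδ, fun h hs hF hSt hlt => ?_⟩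
  by_contra hn
  obtain ⟨y, hy, hbad⟩ := bad_point sup act hs hF hn
  obtain ⟨x, hx1, hx2, _, hx4, hx5, hx6, hx7⟩ := hull_contacts sup hul lams
    (ver P hP gP).2.2.2.2.2.2.1 hs hF S hSt hy 3 (by omega)
  have := hgap x ⟨⟨hx1, hx5⟩, hbad (hf x) hx2 hx6⟩
  linarith

end Pool.Agent.AEU.H20
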