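import Pool.Agent.Helper20_AEU.Tools

/-!
Module ATT: a shortest unmatched special body exists.
-/

namespace Pool.Agent.AEU.H20

open MeasureTheory Complex Filter Topology Pool.Agent.H62T
open Pool.Agent.H16F (Sublin)
open Pool.Agent.AEU

/-- a special body which is unmatched contains an unmatched special hull of `P.card + 2` points -/
theorem reduce (sup : SupStatement) (hul : HulStatement) (lams : LamStatement)
    (act : ActStatement) (uni : UniStatement) (ver : VerStatement) {P Q : Finset HP}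
    (hP : Pg P) (hQ : Pg Q) (gP : G1 P) (gQ : G1 Q) {h : ℂ → ℝ} (hu : Unm P Q h) :
    ∃ x : Fin (P.card + 1 + 1) → ℂ, (∀ i, x i ∈ Cl P) ∧ Unm P Q (hf x) ∧ lam (hf x) ≤ lam h := by
  classical
  obtain ⟨hsp, hun⟩ := hu
  obtain ⟨A, hA1, hA2, hA3⟩ := contacts sup hsp.sub (touch P h) (Finset.Subset.refl _)
  have hAne : A.Nonempty := by
    have : (touch P h).Nonempty := Finset.card_pos.1 (by have := hsp.three; omega)
    obtain ⟨s, hs⟩ := this
    obtain ⟨a, ha, _⟩ := hA3 s hs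
    exact ⟨a, ha⟩
  have hAc : A.card ≤ P.card := hA1.trans (Finset.card_le_card (touch_subset _ _))
  -- add the vertex
  obtain ⟨B, hB1, hB2, hB3, hB4⟩ : ∃ B : Finset ℂ, A ⊆ B ∧ B.card ≤ P.card + 1 ∧
      (∀ b ∈ B, In b h) ∧ ((∃ v, Vx P v ∧ v ∈ B) ∨ 4 ≤ (touch P h).card) := by
    rcases hsp.sp with ⟨v, hv, hvh⟩ | h4
    · refine ⟨insert v A, Finset.subset_insert _ _, ?_, ?_, Or.inl ⟨v, hv, by simp⟩⟩
      · exact (Finset.card_insert_le _ _).trans (by omega)
      · intro b hb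
        rcases Finset.mem_insert.1 hb with rfl | hb
        · exact hvh
        · exact hA2 b hb
    · exact ⟨A, Finset.Subset.refl _, by omega, hA2, Or.inr h4⟩
  -- every hull of points between `B` and `h` is special
  have key : ∀ h' : ℂ → ℝ, Sublin h' → (∀ w, h' w ≤ h w) → (∀ b ∈ B, In b h') →
      Special P h' ∧ touch P h' = touch P h := by
    intro h' hs' hle hin
    have hF' := fits_of_le hle hsp.fits
    have ht : touch P h' = touch P h := by
      refine Finset.Subset.antisymm (touch_of_le hle hsp.fits) ?_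
      intro s hs
      obtain ⟨a, ha, hae⟩ := hA3 s hs
      exact touch_of_point (touch_subset _ _ hs) hF' (hin a (hB1 ha)) hae
    refine ⟨⟨hs', hF', by rw [ht]; exact hsp.three, ?_⟩, ht⟩
    rcases hB4 with ⟨v, hv, hvB⟩ | h4
    · exact Or.inl ⟨v, hv, hin v hvB⟩
    · exact Or.inr (by rw [ht]; exact h4)
  have hBne : B.Nonempty := hAne.mono hB1
  have vcl := (ver P hP gP).2.2.2.2.2.2.1
  obtain ⟨x, hx1, hx2, hx3, hx4⟩ := hull_of hul B hBne hB3 (P.card + 1) (by omega)
  obtain ⟨k1, k2⟩ := key (hf x) hx3 hx2 hx4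
  by_cases hm : ∃ g, Mat P Q g (hf x)
  · obtain ⟨g, hg⟩ := hm
    have hng : ¬ Mat P Q g h := fun hg' => hun ⟨g, hg'⟩
    obtain ⟨y, hy, hbad⟩ := bad_point sup act hsp.sub hsp.fits hng
    have hCin : ∀ c ∈ insert y B, In c h := by
      intro c hc
      rcases Finset.mem_insert.1 hc with rfl | hc
      · exact hy
      · exact hB3 c hc
    obtain ⟨z, hz1, hz2, hz3, hz4⟩ := hull_of hul (insert y B) (Finset.insert_nonempty _ _)
      hCin (P.card + 1) ((Finset.card_insert_le _ _).trans (by omega))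
    obtain ⟨k3, k4⟩ := key (hf z) hz3 hz2 fun b hb => hz4 b (Finset.mem_insert_of_mem hb)
    refine ⟨z, fun i => vcl h hsp.fits _ (hCin _ (hz1 i)), ⟨k3, ?_⟩,
      (lams.2.1 _ _ hz3 hsp.sub hz2).1⟩
    rintro ⟨g', hg'⟩
    have hgg : g = g' := by
      refine ((uni.2 P Q hP hQ gP gQ g g').2 (touch P h) (touch_subset _ _) hsp.three ?_ ?_)
      · intro s hs
        exact hg.mem s (by rw [k2]; exact hs)
      · intro s hs
        exact hg'.mem s (by rw [k4]; exact hs)
    subst hgg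
    exact hbad (hf z) hz2 (hz4 y (Finset.mem_insert_self _ _)) hg'
  · exact ⟨x, fun i => vcl h hsp.fits _ (hB3 _ (hx1 i)), ⟨k1, hm⟩,
      (lams.2.1 _ _ hx3 hsp.sub hx2).1⟩

theorem isClosed_special (cnt : CntStatement) (ver : VerStatement) {P : Finset HP}
    (hP : Pg P) (gP : G1 P) (m : ℕ) :
    IsClosed {x : Fin (m + 1) → ℂ | (∃ v, Vx P v ∧ In v (hf x)) ∨
      4 ≤ (touch P (hf x)).card} := by
  classical
  have h1 : IsClosed {x : Fin (m + 1) → ℂ | ∃ v, Vx P v ∧ In v (hf x)} := by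
    have : {x : Fin (m + 1) → ℂ | ∃ v, Vx P v ∧ In v (hf x)} =
        ⋃ p ∈ (P ×ˢ P).filter (fun p => VxOf P p.1 p.2 (vx p.1 p.2)),
          {x : Fin (m + 1) → ℂ | In (vx p.1 p.2) (hf x)} := by
      ext x
      simp only [Set.mem_ofPred_eq, Set.mem_iUnion, Finset.mem_filter, Finset.mem_product,
        exists_prop]
      constructor
      · rintro ⟨v, ⟨s, t, hv⟩, hin⟩
        have e := ((ver P hP gP).2.2.2.2.1 s t v hv).1
        refine ⟨(s, t), ⟨⟨hv.mem₁, hv.mem₂⟩, ?_⟩, ?_⟩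
        · rw [← e]; exact hv
        · rw [← e]; exact hin
      · rintro ⟨p, ⟨_, hv⟩, hin⟩
        exact ⟨_, ⟨p.1, p.2, hv⟩, hin⟩
    rw [this]
    refine isClosed_biUnion_finset fun p _ => ?_
    have h2 : {x : Fin (m + 1) → ℂ | In (vx p.1 p.2) (hf x)} =
        ⋂ w : ℂ, {x : Fin (m + 1) → ℂ | ip w (vx p.1 p.2) ≤ hf x w} := by
      ext x
      simp [In]
    rw [h2]
    exact isClosed_iInter fun w => isClosed_le continuous_const ((cnt m).1 w)
  exact h1.union (isClosed_card cnt P 4 m)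

theorem att (sup : SupStatement) (hul : HulStatement) (cnt : CntStatement) (opn : OpnStatement)
    (uni : UniStatement) (mixs : MixStatement) (ver : VerStatement) (lams : LamStatement)
    (act : ActStatement) : AttStatement := by
  classical
  intro P Q hP hQ gP gQ hex
  obtain ⟨h₁, hu₁⟩ := hex
  set m := P.card + 1 with hm
  set K : Set (Fin (m + 1) → ℂ) := {x | (∀ i, x i ∈ Cl P) ∧ Unm P Q (hf x)} with hK
  have hKc : IsCompact K := by
    set K₀ : Set (Fin (m + 1) → ℂ) := {x : Fin (m + 1) → ℂ | ∀ i, x i ∈ Cl P} ∩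
        ({x : Fin (m + 1) → ℂ | 3 ≤ (touch P (hf x)).card} ∩
          {x : Fin (m + 1) → ℂ | (∃ v, Vx P v ∧ In v (hf x)) ∨ 4 ≤ (touch P (hf x)).card})
      with hK₀
    have hK₀c : IsCompact K₀ := (isCompact_tuples ver hP gP m).inter_right
      ((isClosed_card cnt P 3 m).inter (isClosed_special cnt ver hP gP m))
    have hF : ∀ x ∈ K₀, Fits P (hf x) := fun x hx => ((mixs P).2.2 m x hx.1).1
    have e : K = {x | x ∈ K₀ ∧ ¬ ∃ g, Mat P Q g (hf x)} := by
      ext x
      constructor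
      · rintro ⟨h1, h2, h3⟩
        exact ⟨⟨h1, h2.three, h2.sp⟩, h3⟩
      · rintro ⟨h1, h3⟩
        exact ⟨h1.1, ⟨(hul m x).1, hF x h1, h1.2.1, h1.2.2⟩, h3⟩
    rw [e]
    refine compact_not hK₀c hF (fun h => ∃ g, Mat P Q g h) ?_
    rintro x ⟨g, hg⟩
    filter_upwards [matched_nhds opn cnt hg] with y hy hFy
    exact ⟨g, hy hFy⟩
  have hKne : K.Nonempty := by
    obtain ⟨x, hx1, hx2, _⟩ := reduce sup hul lams act uni ver hP hQ gP gQ hu₁
    exact ⟨x, hx1, hx2⟩
  obtain ⟨x, hx, hmin⟩ := exists_min cnt hKc hKne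
  refine ⟨hf x, hx.2, fun h' hu' => ?_⟩
  obtain ⟨y, hy1, hy2, hy3⟩ := reduce sup hul lams act uni ver hP hQ gP gQ hu'
  exact (hmin y ⟨hy1, hy2⟩).trans hy3

end Pool.Agent.AEU.H20
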