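import Pool.Agent.Helper20_AEU.Tools

/-!
Module LEV: the critical level.
-/

namespace Pool.Agent.AEU.H20

open MeasureTheory Complex Filter Topology Pool.Agent.H62T
open Pool.Agent.H16F (Sublin)
open Pool.Agent.AEU

theorem sublin_point (x : ℂ) : Sublin fun w => ip w x := by
  constructor
  · intro a b
    simp only [ip, add_re, add_im]
    apply le_of_eq
    ring
  · intro c a _
    simp only [ip, mul_re, mul_im, ofReal_re, ofReal_im]
    ring

/-- a body which touches three sides is not a point -/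
theorem lam_pos (lams : LamStatement) (sup : SupStatement) (ver : VerStatement) {P : Finset HP}
    (hP : Pg P) (gP : G1 P) {h : ℂ → ℝ} (hs : Sublin h) (hF : Fits P h)
    (h3 : 3 ≤ (touch P h).card) : 0 < lam h := by
  by_contra hneg
  obtain ⟨l1, l2, _, _⟩ := lams
  obtain ⟨x, hx, _⟩ := (sup h hs).2.2.2 0
  have hp := sublin_point x
  have e0 : lam (fun w => ip w x) = 0 := by
    have := l1 _ _ hp hp 0 0 x
    simpa using this
  have e1 : (fun w => ip w x) = h :=
    (l2 _ _ hp hs hx).2 (by rw [e0]; exact not_lt.1 hneg)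
  obtain ⟨v1, _, _, _, _, _, v7, _, _⟩ := ver P hP gP
  have hxc : x ∈ Cl P := v7 h hF x hx
  have hon : ∀ s ∈ touch P h, s ∈ P ∧ ip s.1 x = s.2 := by
    intro s hs'
    rw [mem_touch] at hs'
    refine ⟨hs'.1, ?_⟩
    rw [← hs'.2, ← e1]
  obtain ⟨a, b, c, ha, hb, hc, hab, hac, hbc⟩ := Finset.two_lt_card_iff.1 (by omega :
    2 < (touch P h).card)
  have hv : VxOf P a b x := ⟨hxc, (hon a ha).1, (hon b hb).1, hab, (hon a ha).2, (hon b hb).2⟩
  rcases v1 a b x hv c (hon c hc).1 (hon c hc).2 with h1 | h1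
  · exact hac h1.symm
  · exact hbc h1.symm

/-- the set has a least element unless it is empty -/
def HasLeast (A : Set ℝ) : Prop := A.Nonempty → ∃ a ∈ A, ∀ b ∈ A, a ≤ b

theorem HasLeast.union {A B : Set ℝ} (hA : HasLeast A) (hB : HasLeast B) :
    HasLeast (A ∪ B) := by
  intro hne
  by_cases hA' : A.Nonempty
  · obtain ⟨a, ha, hamin⟩ := hA hA'
    by_cases hB' : B.Nonempty
    · obtain ⟨b, hb, hbmin⟩ := hB hB'
      rcases le_total a b with hab | hab
      · refine ⟨a, Or.inl ha, ?_⟩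
        rintro c (hc | hc)
        · exact hamin c hc
        · exact hab.trans (hbmin c hc)
      · refine ⟨b, Or.inr hb, ?_⟩
        rintro c (hc | hc)
        · exact hab.trans (hamin c hc)
        · exact hbmin c hc
    · refine ⟨a, Or.inl ha, ?_⟩
      rintro c (hc | hc)
      · exact hamin c hc
      · exact absurd ⟨c, hc⟩ hB'
  · have hB' : B.Nonempty := by
      obtain ⟨c, hc | hc⟩ := hne
      · exact absurd ⟨c, hc⟩ hA'
      · exact ⟨c, hc⟩
    obtain ⟨b, hb, hbmin⟩ := hB hB'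
    refine ⟨b, Or.inr hb, ?_⟩
    rintro c (hc | hc)
    · exact absurd ⟨c, hc⟩ hA'
    · exact hbmin c hc

/-- lengths of unmatched special bodies -/
def lenU (P Q : Finset HP) : Set ℝ := {l | ∃ h, Unm P Q h ∧ lam h = l}

/-- lengths of ghosts without partner -/
def lenG (P Q : Finset HP) : Set ℝ :=
  {l | ∃ S, Ghost P S ∧ ell S = l ∧ ¬ ∃ S', Ghost Q S' ∧ ell S' = l}

theorem hasLeast_lenU (att : AttStatement) {P Q : Finset HP} (hP : Pg P) (hQ : Pg Q)
    (gP : G1 P) (gQ : G1 Q) : HasLeast (lenU P Q) := by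
  rintro ⟨l, h, hu, _⟩
  obtain ⟨h₀, hu₀, hmin⟩ := att P Q hP hQ gP gQ ⟨h, hu⟩
  refine ⟨lam h₀, ⟨h₀, hu₀, rfl⟩, ?_⟩
  rintro b ⟨h', hu', rfl⟩
  exact hmin h' hu'

theorem hasLeast_lenG (P Q : Finset HP) : HasLeast (lenG P Q) := by
  classical
  intro hne
  have hfin : (lenG P Q).Finite := by
    refine Set.Finite.subset (P.powerset.finite_toSet.image ell) ?_
    rintro l ⟨S, hS, rfl, _⟩
    exact ⟨S, by simpa using hS.1, rfl⟩
  obtain ⟨a, ha, hmin⟩ := hfin.exists_minimalFor id _ hne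
  refine ⟨a, ha, fun b hb => ?_⟩
  rcases le_total a b with h | h
  · exact h
  · exact hmin hb h

theorem allM_of {P Q : Finset HP} {L : ℝ} (H : ∀ l ∈ lenU P Q, L ≤ l) : AllM P Q L := by
  intro h hsp hlt
  by_contra hn
  have := H (lam h) ⟨h, ⟨hsp, hn⟩, rfl⟩
  linarith

theorem ghP_of {P Q : Finset HP} {L : ℝ} (H : ∀ l ∈ lenG P Q, L ≤ l) : GhP P Q L := by
  intro S hS hlt
  by_contra hn
  have := H (ell S) ⟨S, hS, rfl, hn⟩
  linarith

theorem lev (att : AttStatement) (cgp : CgpStatement) (gho : GhoStatement)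
    (lams : LamStatement) (sup : SupStatement) (ver : VerStatement) : LevStatement := by
  intro P Q hG hG' h4 hnc
  have hleast := ((hasLeast_lenU att hG.pg hG'.pg hG.g1 hG'.g1).union
    (hasLeast_lenU att hG'.pg hG.pg hG'.g1 hG.g1)).union
      ((hasLeast_lenG P Q).union (hasLeast_lenG Q P))
  have hne : ((lenU P Q ∪ lenU Q P) ∪ (lenG P Q ∪ lenG Q P)).Nonempty := by
    by_contra hemp
    refine hnc (cgp P Q hG hG' h4 fun h hsp => ?_)
    by_contra hn
    exact hemp ⟨lam h, Or.inl (Or.inl ⟨h, ⟨hsp, hn⟩, rfl⟩)⟩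
  obtain ⟨L, hL, hmin⟩ := hleast hne
  have pu : ∀ {P Q : Finset HP}, Gen P → ∀ l ∈ lenU P Q, 0 < l := by
    rintro P Q hG l ⟨h, hu, rfl⟩
    exact lam_pos lams sup ver hG.pg hG.g1 hu.1.sub hu.1.fits hu.1.three
  have pg : ∀ {P Q : Finset HP}, Gen P → ∀ l ∈ lenG P Q, 0 < l := by
    rintro P Q hG l ⟨S, hS, rfl, _⟩
    obtain ⟨_, h₀, hs₀, hF₀, ht₀, hl₀, _⟩ := gho P hG S hS
    rw [← hl₀]
    exact lam_pos lams sup ver hG.pg hG.g1 hs₀ hF₀ (by rw [ht₀, hS.2.1])
  refine ⟨L, ?_, allM_of fun l hl => hmin l (Or.inl (Or.inl hl)),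
    allM_of fun l hl => hmin l (Or.inl (Or.inr hl)),
    ghP_of fun l hl => hmin l (Or.inr (Or.inl hl)),
    ghP_of fun l hl => hmin l (Or.inr (Or.inr hl)), ?_⟩
  · rcases hL with (hL | hL) | (hL | hL)
    · exact pu hG L hL
    · exact pu hG' L hL
    · exact pg hG L hL
    · exact pg hG' L hL
  · rcases hL with (hL | hL) | (hL | hL)
    · exact Or.inl hL
    · exact Or.inr (Or.inl hL)
    · exact Or.inr (Or.inr (Or.inl hL))
    · exact Or.inr (Or.inr (Or.inr hL))

end Pool.Agent.AEU.H20
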