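import Pool.Agent.Helper25_AEU.Stmt

/-!
Tools for the compactness modules ATT, UNT, EXI, LOC, LEV.
-/

namespace Pool.Agent.AEU.H20

open MeasureTheory Complex Filter Topology Pool.Agent.H62T
open Pool.Agent.H16F (Sublin)
open Pool.Agent.AEU

/-- a nonempty finite set with at most `m + 1` elements is the range of a tuple -/
theorem exists_tuple (A : Finset ℂ) (hA : A.Nonempty) (m : ℕ) (hm : A.card ≤ m + 1) :
    ∃ x : Fin (m + 1) → ℂ, (∀ i, x i ∈ A) ∧ ∀ a ∈ A, ∃ i, x i = a := by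
  classical
  obtain ⟨a₀, ha₀⟩ := hA
  let e := A.equivFin
  refine ⟨fun i => if h : i.val < A.card then (e.symm ⟨i.val, h⟩ : ℂ) else a₀, ?_, ?_⟩
  · intro i
    by_cases h : i.val < A.card
    · simp only [h, dif_pos]
      exact (e.symm ⟨i.val, h⟩).2
    · simp only [h, dif_neg, not_false_eq_true]
      exact ha₀
  · intro a ha
    have h1 := (e ⟨a, ha⟩).2
    refine ⟨⟨(e ⟨a, ha⟩).val, lt_of_lt_of_le h1 hm⟩, ?_⟩
    simp only [h1, dif_pos]
    simp

/-- the hull of finitely many points of a body: support function below the one of the body,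
contains the points -/
theorem hull_of (hul : HulStatement) {h : ℂ → ℝ} (A : Finset ℂ) (hA : A.Nonempty)
    (hin : ∀ a ∈ A, In a h) (m : ℕ) (hm : A.card ≤ m + 1) :
    ∃ x : Fin (m + 1) → ℂ, (∀ i, x i ∈ A) ∧ (∀ w, hf x w ≤ h w) ∧ Sublin (hf x) ∧
      (∀ a ∈ A, In a (hf x)) := by
  obtain ⟨x, hx, hx'⟩ := exists_tuple A hA m hm
  obtain ⟨h1, h2, _, h4, _, _⟩ := hul m x
  refine ⟨x, hx, h4 h fun i => hin _ (hx i), h1, ?_⟩
  intro a ha
  obtain ⟨i, rfl⟩ := hx' a ha
  exact h2 i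

theorem mem_touch {P : Finset HP} {h : ℂ → ℝ} {s : HP} :
    s ∈ touch P h ↔ s ∈ P ∧ h s.1 = s.2 := by
  simp [touch]

theorem touch_subset (P : Finset HP) (h : ℂ → ℝ) : touch P h ⊆ P := by
  intro s hs
  exact (mem_touch.1 hs).1

theorem fits_of_le {P : Finset HP} {h h' : ℂ → ℝ} (hle : ∀ w, h' w ≤ h w) (hF : Fits P h) :
    Fits P h' := fun s hs => (hle s.1).trans (hF s hs)

theorem touch_of_le {P : Finset HP} {h h' : ℂ → ℝ} (hle : ∀ w, h' w ≤ h w) (hF : Fits P h) :
    touch P h' ⊆ touch P h := by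
  intro s hs
  rw [mem_touch] at hs ⊢
  exact ⟨hs.1, le_antisymm (hF s hs.1) (hs.2 ▸ hle s.1)⟩

/-- a side with a contact point is touched -/
theorem touch_of_point {P : Finset HP} {h : ℂ → ℝ} {s : HP} {y : ℂ} (hs : s ∈ P)
    (hF : Fits P h) (hy : In y h) (e : ip s.1 y = s.2) : s ∈ touch P h := by
  rw [mem_touch]
  exact ⟨hs, le_antisymm (hF s hs) (e ▸ hy s.1)⟩

/-- contact points for a set of touched sides -/
theorem contacts (sup : SupStatement) {P : Finset HP} {h : ℂ → ℝ} (hs : Sublin h)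
    (S : Finset HP) (hS : S ⊆ touch P h) :
    ∃ A : Finset ℂ, A.card ≤ S.card ∧ (∀ a ∈ A, In a h) ∧
      ∀ s ∈ S, ∃ a ∈ A, ip s.1 a = s.2 := by
  classical
  obtain ⟨_, _, _, h4⟩ := sup h hs
  choose c hc1 hc2 using h4
  refine ⟨S.image fun s => c s.1, Finset.card_image_le, ?_, ?_⟩
  · intro a ha
    obtain ⟨s, _, rfl⟩ := Finset.mem_image.1 ha
    exact hc1 _
  · intro s hs'
    exact ⟨c s.1, Finset.mem_image_of_mem _ hs', by
      rw [hc2]; exact (mem_touch.1 (hS hs')).2⟩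

theorem isCompact_tuples (ver : VerStatement) {P : Finset HP} (hP : Pg P) (hG : G1 P) (m : ℕ) :
    IsCompact {x : Fin (m + 1) → ℂ | ∀ i, x i ∈ Cl P} := by
  obtain ⟨_, _, _, _, _, _, _, _, hc⟩ := ver P hP hG
  have h1 := isCompact_univ_pi (fun _ : Fin (m + 1) => hc)
  have h2 : {x : Fin (m + 1) → ℂ | ∀ i, x i ∈ Cl P} = Set.pi Set.univ fun _ => Cl P := by
    ext x
    simp [Set.mem_pi]
  rw [h2]
  exact h1

/-- the condition to touch the sides in `S` is closed -/
theorem isClosed_touch (cnt : CntStatement) (P S : Finset HP) (hS : S ⊆ P) (m : ℕ) :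
    IsClosed {x : Fin (m + 1) → ℂ | S ⊆ touch P (hf x)} := by
  have : {x : Fin (m + 1) → ℂ | S ⊆ touch P (hf x)} =
      ⋂ s ∈ S, {x : Fin (m + 1) → ℂ | hf x s.1 = s.2} := by
    ext x
    simp only [Set.mem_ofPred_eq, Set.mem_iInter]
    constructor
    · intro h s hs
      exact (mem_touch.1 (h hs)).2
    · intro h s hs
      exact mem_touch.2 ⟨hS hs, h s hs⟩
  rw [this]
  refine isClosed_biInter fun s _ => ?_
  exact isClosed_eq ((cnt m).1 s.1) continuous_const

/-- the condition to touch at least `k` sides is closed -/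
theorem isClosed_card (cnt : CntStatement) (P : Finset HP) (k m : ℕ) :
    IsClosed {x : Fin (m + 1) → ℂ | k ≤ (touch P (hf x)).card} := by
  classical
  have : {x : Fin (m + 1) → ℂ | k ≤ (touch P (hf x)).card} =
      ⋃ S ∈ P.powerset.filter (fun S => k ≤ S.card),
        {x : Fin (m + 1) → ℂ | S ⊆ touch P (hf x)} := by
    ext x
    simp only [Set.mem_ofPred_eq, Set.mem_iUnion, Finset.mem_filter, Finset.mem_powerset,
      exists_prop]
    constructor
    · intro h
      exact ⟨touch P (hf x), ⟨touch_subset _ _, h⟩, Finset.Subset.refl _⟩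
    · rintro ⟨S, ⟨_, h2⟩, h3⟩
      exact h2.trans (Finset.card_le_card h3)
  rw [this]
  refine isClosed_biUnion_finset fun S hS => ?_
  exact isClosed_touch cnt P S (Finset.mem_powerset.1 (Finset.mem_filter.1 hS).1) m

/-- a nonempty compact set of tuples contains one with the smallest perimeter -/
theorem exists_min (cnt : CntStatement) {m : ℕ} {K : Set (Fin (m + 1) → ℂ)} (hK : IsCompact K)
    (hne : K.Nonempty) : ∃ x ∈ K, ∀ y ∈ K, lam (hf x) ≤ lam (hf y) :=
  hK.exists_isMinOn hne (cnt m).2.continuousOn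

/-- a compact set of tuples of perimeter bigger than `L` has a gap -/
theorem exists_gap (cnt : CntStatement) {m : ℕ} {K : Set (Fin (m + 1) → ℂ)} (hK : IsCompact K)
    (L : ℝ) (h : ∀ x ∈ K, L < lam (hf x)) : ∃ δ > 0, ∀ x ∈ K, L + δ ≤ lam (hf x) := by
  rcases K.eq_empty_or_nonempty with rfl | hne
  · exact ⟨1, one_pos, fun x hx => absurd hx (Set.notMem_empty x)⟩
  · obtain ⟨x, hx, hmin⟩ := exists_min cnt hK hne
    exact ⟨lam (hf x) - L, sub_pos.2 (h x hx), fun y hy => by have := hmin y hy; linarith⟩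

/-- relative openness of matching -/
theorem matched_nhds (opn : OpnStatement) (cnt : CntStatement) {P Q : Finset HP} {g : Iso2}
    {m : ℕ} {x : Fin (m + 1) → ℂ} (hx : Mat P Q g (hf x)) :
    ∀ᶠ y in 𝓝 x, Fits P (hf y) → Mat P Q g (hf y) := by
  obtain ⟨ε, hε, H⟩ := opn P Q g (hf x) hx
  have h1 : ∀ᶠ y in 𝓝 x, ∀ s ∈ P, |hf y s.1 - hf x s.1| < ε := by
    rw [Filter.eventually_all_finset]
    intro s _
    have := ((cnt m).1 s.1).tendsto x
    have h2 := (Metric.tendsto_nhds.1 this) ε hε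
    simpa [Real.dist_eq] using h2
  have h2 : ∀ᶠ y in 𝓝 x, ∀ s ∈ Q, |mb g (hf y) s.1 - mb g (hf x) s.1| < ε := by
    rw [Filter.eventually_all_finset]
    intro s _
    have := ((cnt m).1 (g.linearIsometryEquiv.symm s.1)).tendsto x
    have h2 := (Metric.tendsto_nhds.1 this) ε hε
    filter_upwards [h2] with y hy
    rw [Real.dist_eq] at hy
    have h3 : mb g (hf y) s.1 - mb g (hf x) s.1 =
        hf y (g.linearIsometryEquiv.symm s.1) - hf x (g.linearIsometryEquiv.symm s.1) := by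
      simp only [mb]
      ring
    rw [h3]
    exact hy
  filter_upwards [h1, h2] with y hy1 hy2 hF
  exact H (hf y) hF hy1 hy2

/-- the tuples of a compact set which do not have an open property form a compact set -/
theorem compact_not {P : Finset HP} {m : ℕ} {K : Set (Fin (m + 1) → ℂ)} (hK : IsCompact K)
    (hF : ∀ x ∈ K, Fits P (hf x)) (p : (ℂ → ℝ) → Prop)
    (ho : ∀ x : Fin (m + 1) → ℂ, p (hf x) → ∀ᶠ y in 𝓝 x, Fits P (hf y) → p (hf y)) :
    IsCompact {x | x ∈ K ∧ ¬ p (hf x)} := by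
  have e : {x | x ∈ K ∧ ¬ p (hf x)} =
      K \ interior {y : Fin (m + 1) → ℂ | Fits P (hf y) → p (hf y)} := by
    ext x
    simp only [Set.mem_ofPred_eq, Set.mem_diff]
    constructor
    · rintro ⟨h1, h2⟩
      exact ⟨h1, fun h3 => h2 (interior_subset h3 (hF x h1))⟩
    · rintro ⟨h1, h2⟩
      refine ⟨h1, fun h3 => h2 ?_⟩
      rw [mem_interior_iff_mem_nhds]
      exact ho x h3
  rw [e]
  exact hK.diff isOpen_interior

/-- support point of the moved body -/
theorem mb_point (sup : SupStatement) (act : ActStatement) {h : ℂ → ℝ} (hs : Sublin h)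
    (g : Iso2) (w : ℂ) : ∃ y, In y h ∧ ip w (g y) = mb g h w := by
  obtain ⟨_, _, _, _, _, _, hin, _, _, _, hsub, _, _, _⟩ := act
  obtain ⟨_, _, _, h4⟩ := sup (mb g h) (hsub g h hs)
  obtain ⟨z, hz1, hz2⟩ := h4 w
  refine ⟨g.symm z, ?_, ?_⟩
  · rw [← hin g]
    simpa using hz1
  · simpa using hz2

theorem mb_in (act : ActStatement) {h : ℂ → ℝ} (g : Iso2) {y : ℂ} (hy : In y h) (w : ℂ) :
    ip w (g y) ≤ mb g h w := by
  obtain ⟨_, _, _, _, _, _, hin, _⟩ := act
  exact (hin g y h).2 hy w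

theorem mb_le {h h' : ℂ → ℝ} (g : Iso2) (hle : ∀ w, h' w ≤ h w) (w : ℂ) :
    mb g h' w ≤ mb g h w := by
  simp only [mb]
  have := hle (g.linearIsometryEquiv.symm w)
  linarith

/-- the reason for not being matched by `g` can be seen at one point -/
theorem bad_point (sup : SupStatement) (act : ActStatement) {P Q : Finset HP} {g : Iso2}
    {h : ℂ → ℝ} (hs : Sublin h) (hF : Fits P h) (hn : ¬ Mat P Q g h) :
    ∃ y, In y h ∧ ∀ h' : ℂ → ℝ, (∀ w, h' w ≤ h w) → In y h' → ¬ Mat P Q g h' := by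
  by_cases h1 : Fits Q (mb g h)
  · by_cases h2 : ∀ s ∈ touch P h, mv g s ∈ Q
    · have h3 : ¬ ∀ s ∈ touch Q (mb g h), mv g⁻¹ s ∈ P := fun h3 => hn ⟨hF, h1, h2, h3⟩
      push Not at h3
      obtain ⟨s, hs1, hs2⟩ := h3
      obtain ⟨y, hy, hy'⟩ := mb_point sup act hs g s.1
      refine ⟨y, hy, fun h' hle hy2 hM => hs2 (hM.mem' s ?_)⟩
      rw [mem_touch] at hs1 ⊢
      refine ⟨hs1.1, le_antisymm (hM.fits' s hs1.1) ?_⟩
      rw [← hs1.2, ← hy']
      exact mb_in act g hy2 s.1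
    · push Not at h2
      obtain ⟨s, hs1, hs2⟩ := h2
      obtain ⟨_, _, _, h4⟩ := sup h hs
      obtain ⟨y, hy, hy'⟩ := h4 s.1
      refine ⟨y, hy, fun h' hle hy2 hM => hs2 (hM.mem s ?_)⟩
      rw [mem_touch] at hs1 ⊢
      refine ⟨hs1.1, le_antisymm (hM.fits s hs1.1) ?_⟩
      rw [← hs1.2, ← hy']
      exact hy2 s.1
  · simp only [Fits] at h1
    push Not at h1
    obtain ⟨s, hs1, hs2⟩ := h1
    obtain ⟨y, hy, hy'⟩ := mb_point sup act hs g s.1
    refine ⟨y, hy, fun h' hle hy2 hM => ?_⟩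
    have h3 := hM.fits' s hs1
    have h4 := mb_in act g hy2 s.1
    linarith

end Pool.Agent.AEU.H20
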